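import Pool.Agent.H15.HLU.Targets

/-! Row IN2 of the board hlu_modules: weighted inflation. -/

namespace Pool.Agent.H34.HLU

open Pool.Agent.H51.Homog Pool.Agent.H22.HSQ Pool.Agent.H15.HLS Pool.Agent.H15.HLU

theorem pf_IN2 (hIND : T_IND) (hWCN : T_WCN) (hTRO : T_TRO) : T_IN2 := by
  intro u c m hB
  obtain ⟨L, S0, S1, hL, hS0, hS1, hu, hc, hd⟩ := hB
  obtain ⟨A, B, hAB⟩ := hIND m L S0 S1 hL hS0 hS1 hd
  refine ⟨A, B, fun y q hy hy6 hq hq6 => ?_⟩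
  obtain ⟨β, hβ, π, L', hcard, hLift⟩ := hAB y q hy hy6 hq hq6
  exact (hTRO β (u + c * y) _ hcard).2
    ⟨L', hLift.latin, hWCN m u c y L S0 S1 hL hS0 hS1 hu hc hd β π L' hLift⟩

end Pool.Agent.H34.HLU
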